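import Pool.Agent.Y311.GT.Num
import Pool.Agent.Helper448.Plane

/-!
# Unions of `Δ ≥ 5` perfect matchings have polynomially large geometric thickness

The union of `Δ ≥ 5` uniformly random perfect matchings between two sets with `m` elements has
geometric thickness greater than `m ^ (1/2 - 2/Δ) * exp (- 25 √(log m))` with probability at least
`1 - exp (- Δ m √(log m))`; and there are `Δ`-regular graphs with `n` vertices of geometric
thickness greater than `n ^ (1/2 - 2/Δ) * exp (- 26 √(log n))`.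
-/

set_option autoImplicit false

open Filter

namespace Pool.Agent.Results.MP_f50651_co.PolynomialGrowth

/-- The plane. -/
abbrev Plane := EuclideanSpace ℝ (Fin 2)

/-- `p` is a straight-line drawing of `G`: the vertices are placed at distinct points and no edge,
drawn as the closed segment between its ends, passes through a vertex other than its ends. -/
structure IsDrawing {V : Type} (G : SimpleGraph V) (p : V → Plane) : Prop where
  injective : Function.Injective p
  avoid : ∀ u v w : V, G.Adj u v → w ≠ u → w ≠ v → p w ∉ segment ℝ (p u) (p v)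

/-- The segments of the edges `uv` and `xy` share a point that is not a common endpoint. -/
def Cross {V : Type} (p : V → Plane) (u v x y : V) : Prop :=
  ∃ z : Plane, z ∈ segment ℝ (p u) (p v) ∧ z ∈ segment ℝ (p x) (p y) ∧
    ¬ ∃ w : V, (w = u ∨ w = v) ∧ (w = x ∨ w = y) ∧ z = p w

/-- Some straight-line drawing of `G` admits a colouring of the edges with `k` colours in which
no two (distinct) edges of the same colour cross. -/
def DrawableWith {V : Type} (G : SimpleGraph V) (k : ℕ) : Prop :=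
  ∃ p : V → Plane, IsDrawing G p ∧ ∃ c : G.edgeSet → Fin k,
    ∀ (u v x y : V) (h : G.Adj u v) (h' : G.Adj x y), s(u, v) ≠ s(x, y) →
      c ⟨s(u, v), h⟩ = c ⟨s(x, y), h'⟩ → ¬ Cross p u v x y

/-- The geometric thickness. -/
noncomputable def geometricThickness {V : Type} (G : SimpleGraph V) : ℕ :=
  sInf {k | DrawableWith G k}

/-- The union of the perfect matchings `a ↦ π j a` between two copies of `{0, …, m - 1}`. -/
def un {m Δ : ℕ} (π : Fin Δ → Equiv.Perm (Fin m)) : SimpleGraph (Fin m ⊕ Fin m) where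
  Adj u v := match u, v with
    | Sum.inl a, Sum.inr b => ∃ j, π j a = b
    | Sum.inr b, Sum.inl a => ∃ j, π j a = b
    | _, _ => False
  symm := ⟨by
    rintro (a | a) (b | b) h
    · exact h
    · exact h
    · exact h
    · exact h⟩
  loopless := ⟨by
    rintro (a | a) h
    · exact h
    · exact h⟩

/-- Every finite graph has a drawing with a suitable colouring, so the infimum is a minimum. -/
theorem exists_drawableWith {V : Type} [Finite V] (G : SimpleGraph V) :
    ∃ k, DrawableWith G k := by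
  classical
  have := Fintype.ofFinite V
  obtain ⟨f, hf⟩ : ∃ f : V → ℝ, Function.Injective f :=
    ⟨fun v => ((Fintype.equivFin V v : ℕ) : ℝ), fun u v h => by
      have h1 : ((Fintype.equivFin V u : ℕ) : ℝ) = ((Fintype.equivFin V v : ℕ) : ℝ) := h
      exact (Fintype.equivFin V).injective (Fin.ext (by exact_mod_cast h1))⟩
  refine ⟨Fintype.card G.edgeSet, fun v => !₂[f v, (f v) ^ 2], ⟨?_, ?_⟩,
    Fintype.equivFin G.edgeSet, ?_⟩
  · intro u v h
    apply hf
    have := congrArg (fun q : Plane => q 0) h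
    simpa using this
  · rintro u v w huv hwu hwv ⟨a, b, ha, hb, hab, h⟩
    have h0 := congrArg (fun q : Plane => q 0) h
    have h1 := congrArg (fun q : Plane => q 1) h
    simp at h0 h1
    have hne : f u ≠ f v := fun h => huv.ne (hf h)
    have h2 : a * b * (f u - f v) ^ 2 = 0 := by
      have hb' : b = 1 - a := by linarith
      subst hb'
      rw [← h0] at h1
      nlinarith
    have h3 : (f u - f v) ^ 2 ≠ 0 := pow_ne_zero _ (sub_ne_zero.mpr hne)
    rcases mul_eq_zero.mp ((mul_eq_zero.mp h2).resolve_right h3) with ha0 | hb0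
    · apply hwv
      apply hf
      rw [← h0, ha0]
      have : b = 1 := by linarith
      rw [this]; ring
    · apply hwu
      apply hf
      rw [← h0, hb0]
      have : a = 1 := by linarith
      rw [this]; ring
  · intro u v x y h h' hne hc
    exfalso
    apply hne
    have := (Fintype.equivFin G.edgeSet).injective hc
    exact congrArg Subtype.val this

theorem drawable_thickness {V : Type} [Finite V] (G : SimpleGraph V) :
    DrawableWith G (geometricThickness G) := Nat.sInf_mem (exists_drawableWith G)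

theorem drawable_mono {V : Type} {G : SimpleGraph V} {k l : ℕ} (h : k ≤ l)
    (hG : DrawableWith G k) : DrawableWith G l := by
  obtain ⟨p, hp, c, hc⟩ := hG
  refine ⟨p, hp, fun e => Fin.castLE h (c e), ?_⟩
  intro u v x y h1 h2 h3 h4
  exact hc u v x y h1 h2 h3 (Fin.castLE_injective h h4)

theorem drawable_sub {V W : Type} {G : SimpleGraph V} {G' : SimpleGraph W} (f : V ↪ W)
    (hf : ∀ u v, G.Adj u v → G'.Adj (f u) (f v)) {k : ℕ} (h : DrawableWith G' k) :
    DrawableWith G k := by
  obtain ⟨p, hp, c, hc⟩ := h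
  have hmem : ∀ e : Sym2 V, e ∈ G.edgeSet → e.map f ∈ G'.edgeSet := by
    intro e
    induction e with
    | _ u v => exact fun h => hf u v h
  refine ⟨fun v => p (f v), ⟨hp.injective.comp f.injective, ?_⟩,
    fun e => c ⟨e.1.map f, hmem e.1 e.2⟩, ?_⟩
  · intro u v w huv hwu hwv
    exact hp.avoid _ _ _ (hf u v huv) (fun h => hwu (f.injective h)) (fun h => hwv (f.injective h))
  · rintro u v x y h1 h2 hne hcol ⟨z, hz1, hz2, hz3⟩
    refine hc (f u) (f v) (f x) (f y) (hf u v h1) (hf x y h2) ?_ hcol ⟨z, hz1, hz2, ?_⟩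
    · intro h
      exact hne (Sym2.map.injective f.injective h)
    · rintro ⟨w, hw1, hw2, hw3⟩
      apply hz3
      rcases hw1 with hw1 | hw1 <;> rcases hw2 with hw2 | hw2
      · exact ⟨u, Or.inl rfl, Or.inl (f.injective (hw1.symm.trans hw2)), hw3.trans (congrArg p hw1)⟩
      · exact ⟨u, Or.inl rfl, Or.inr (f.injective (hw1.symm.trans hw2)), hw3.trans (congrArg p hw1)⟩
      · exact ⟨v, Or.inr rfl, Or.inl (f.injective (hw1.symm.trans hw2)), hw3.trans (congrArg p hw1)⟩
      · exact ⟨v, Or.inr rfl, Or.inr (f.injective (hw1.symm.trans hw2)), hw3.trans (congrArg p hw1)⟩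

theorem thickness_mono {V W : Type} [Finite W] {G : SimpleGraph V} {G' : SimpleGraph W}
    (f : V ↪ W) (hf : ∀ u v, G.Adj u v → G'.Adj (f u) (f v)) :
    geometricThickness G ≤ geometricThickness G' :=
  Nat.sInf_le (drawable_sub f hf (drawable_thickness G'))

/-- A drawing with `k` colours gives a drawing in the sense of the library. -/
theorem draw_of_drawable {m k D : ℕ} (π : Fin D → Equiv.Perm (Fin m))
    (h : DrawableWith (un π) k) :
    ∃ (X Y : Pool.Agent.Y311.GT.VV m → ℝ) (c : Fin D → Fin m → Fin k),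
      Pool.Agent.Y311.GT.Draw π X Y c := by
  obtain ⟨p, hp, c, hc⟩ := h
  obtain ⟨t, ht⟩ := Pool.Agent.Helper448.Plane.exists_shear p hp.injective
  have hadj : ∀ j a, (un π).Adj (Sum.inl a) (Sum.inr (π j a)) := fun j a => ⟨j, rfl⟩
  refine ⟨fun v => p v 0 + t * p v 1, fun v => p v 1,
    fun j a => c ⟨s(Sum.inl a, Sum.inr (π j a)), hadj j a⟩, ht, ?_, ?_⟩
  · intro j a v h1 h2 hon
    apply hp.avoid _ _ v (hadj j a) h1 h2
    obtain ⟨l, hl, h3, h4⟩ := hon
    simp only at h3 h4
    refine ⟨1 - l, l, by linarith [hl.2], hl.1, by ring, ?_⟩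
    ext i
    fin_cases i
    · simp only [Fin.zero_eta, Fin.isValue, PiLp.add_apply, PiLp.smul_apply, smul_eq_mul]
      rw [← h4] at h3
      linarith
    · simp only [Fin.mk_one, Fin.isValue, PiLp.add_apply, PiLp.smul_apply, smul_eq_mul]
      exact h4
  · intro j a a' haa hcc hmeet
    obtain ⟨l, hl, m', hm', h3, h4⟩ := hmeet
    have hπne : π j a ≠ π j a' := fun h => haa ((π j).injective h)
    refine hc _ _ _ _ (hadj j a) (hadj j a') ?_ hcc
      ⟨(1 - l) • p (Sum.inl a) + l • p (Sum.inr (π j a)),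
        ⟨1 - l, l, by linarith [hl.2], hl.1, by ring, rfl⟩,
        ⟨1 - m', m', by linarith [hm'.2], hm'.1, by ring, ?_⟩, ?_⟩
    · simp [haa]
    · ext i
      fin_cases i
      · simp only [Fin.zero_eta, Fin.isValue, PiLp.add_apply, PiLp.smul_apply, smul_eq_mul]
        have e : t * ((1 - l) * p (Sum.inl a) 1 + l * p (Sum.inr (π j a)) 1) =
          t * ((1 - m') * p (Sum.inl a') 1 + m' * p (Sum.inr (π j a')) 1) := by rw [h4]
        linarith
      · simp only [Fin.mk_one, Fin.isValue, PiLp.add_apply, PiLp.smul_apply, smul_eq_mul]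
        exact h4.symm
    · rintro ⟨w, h1 | h1, h2 | h2, _⟩
      · rw [h1] at h2; simp [haa] at h2
      · rw [h1] at h2; simp at h2
      · rw [h1] at h2; simp at h2
      · rw [h1] at h2; simp [hπne] at h2

/-- The tuples whose union has small geometric thickness. -/
def bad (m Δ : ℕ) : Set (Fin Δ → Equiv.Perm (Fin m)) :=
  {π | (geometricThickness (un π) : ℝ) ≤
    (m : ℝ) ^ (1 / 2 - 2 / (Δ : ℝ)) * Real.exp (-(25 * √(Real.log m)))}

theorem exponent {Δ : ℕ} (hΔ : 5 ≤ Δ) :
    1 / 10 ≤ 1 / 2 - 2 / (Δ : ℝ) ∧ 1 / 2 - 2 / (Δ : ℝ) ≤ 1 / 2 := by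
  have h5 : (5:ℝ) ≤ Δ := by exact_mod_cast hΔ
  have h1 : 2 / (Δ:ℝ) ≤ 2 / 5 := div_le_div_of_nonneg_left (by norm_num) (by norm_num) h5
  have h2 : 0 ≤ 2 / (Δ:ℝ) := by positivity
  constructor <;> linarith

theorem sqrt_log_tendsto : Tendsto (fun m : ℕ => √(Real.log m)) atTop atTop :=
  Real.tendsto_sqrt_atTop.comp (Real.tendsto_log_atTop.comp tendsto_natCast_atTop_atTop)

theorem bad_le (Δ : ℕ) (hΔ : 5 ≤ Δ) : ∀ᶠ m : ℕ in atTop, ((bad m Δ).ncard : ℝ) ≤
    Real.exp (-(Δ * m * √(Real.log m))) * (m.factorial : ℝ) ^ Δ := by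
  classical
  obtain ⟨he1, _⟩ := exponent hΔ
  filter_upwards [Pool.Agent.Y311.GT.eventually_BB Δ (by omega), eventually_gt_atTop 0,
    sqrt_log_tendsto.eventually_ge_atTop 250] with m hm hm0 hs
  have hmR : (0:ℝ) < m := by exact_mod_cast hm0
  obtain ⟨F, hF⟩ : ∃ F : ℝ, F = (m : ℝ) ^ (1 / 2 - 2 / (Δ : ℝ)) *
    Real.exp (-(25 * √(Real.log m))) := ⟨_, rfl⟩
  have hF1 : 1 ≤ F := by
    have hlog : √(Real.log m) ^ 2 = Real.log m := by
      apply Real.sq_sqrt
      by_contra hneg
      push Not at hneg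
      have : √(Real.log m) = 0 := Real.sqrt_eq_zero_of_nonpos hneg.le
      linarith
    have hmL : (m:ℝ) = Real.exp (Real.log m) := (Real.exp_log hmR).symm
    have h1 : (m : ℝ) ^ (1 / 2 - 2 / (Δ : ℝ)) =
        Real.exp (Real.log m * (1 / 2 - 2 / (Δ : ℝ))) := Real.rpow_def_of_pos hmR _
    rw [hF, h1, ← Real.exp_add]
    apply Real.one_le_exp
    obtain ⟨s, hsdef⟩ : ∃ s, s = √(Real.log m) := ⟨_, rfl⟩
    rw [← hsdef] at hs hlog ⊢
    rw [← hlog]
    have h2 : s ^ 2 * (1 / 10) ≤ s ^ 2 * (1 / 2 - 2 / (Δ : ℝ)) :=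
      mul_le_mul_of_nonneg_left he1 (sq_nonneg s)
    nlinarith
  have hk0 : 0 < ⌊F⌋₊ + 1 := Nat.succ_pos _
  have hkle : ((⌊F⌋₊ + 1 : ℕ) : ℝ) ≤ 2 * F := by
    push_cast
    have := Nat.floor_le (by linarith : 0 ≤ F)
    linarith
  obtain ⟨M, N, hMN, hB⟩ := hm (⌊F⌋₊ + 1) hk0 (by rw [← hF]; exact hkle)
  have hcount := Pool.Agent.Y311.GT.count_sub (M := M) (N := N) (k := ⌊F⌋₊ + 1) (m := m)
    (D := Δ) hm0 (by omega) hMN (Set.toFinite (bad m Δ)).toFinset
    (by
      intro π hπ
      rw [Set.Finite.mem_toFinset] at hπ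
      apply draw_of_drawable
      apply drawable_mono _ (drawable_thickness (un π))
      have h1 : geometricThickness (un π) ≤ ⌊F⌋₊ := Nat.le_floor (by rw [hF]; exact hπ)
      omega)
  rw [← Set.ncard_eq_toFinset_card _ (Set.toFinite (bad m Δ))] at hcount
  refine le_trans ?_ hB
  exact_mod_cast hcount

/-- If the matchings are pairwise disjoint, then the union is regular. -/
theorem un_regular {m Δ : ℕ} (π : Fin Δ → Equiv.Perm (Fin m))
    (h : ∀ a, Function.Injective (fun j => π j a)) (w : Fin m ⊕ Fin m) :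
    ((un π).neighborSet w).ncard = Δ := by
  rcases w with a | b
  · have e : (un π).neighborSet (Sum.inl a) =
        (fun j : Fin Δ => (Sum.inr (π j a) : Fin m ⊕ Fin m)) '' Set.univ := by
      ext v
      constructor
      · intro hv
        rcases v with v | v
        · exact absurd hv (fun h => h)
        · obtain ⟨j, rfl⟩ := hv
          exact ⟨j, Set.mem_univ _, rfl⟩
      · rintro ⟨j, _, rfl⟩
        exact ⟨j, rfl⟩
    rw [e, Set.ncard_image_of_injective _ (fun i j hij => h a (Sum.inr_injective hij)),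
      Set.ncard_univ, Nat.card_eq_fintype_card, Fintype.card_fin]
  · have e : (un π).neighborSet (Sum.inr b) =
        (fun j : Fin Δ => (Sum.inl ((π j).symm b) : Fin m ⊕ Fin m)) '' Set.univ := by
      ext v
      constructor
      · intro hv
        rcases v with v | v
        · obtain ⟨j, rfl⟩ := hv
          exact ⟨j, Set.mem_univ _, by simp⟩
        · exact absurd hv (fun h => h)
      · rintro ⟨j, _, rfl⟩
        exact ⟨j, by simp⟩
    have hinj : Function.Injective
        (fun j : Fin Δ => (Sum.inl ((π j).symm b) : Fin m ⊕ Fin m)) := by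
      intro i j hij
      have h1 : (π i).symm b = (π j).symm b := Sum.inl_injective hij
      apply h ((π i).symm b)
      show π i ((π i).symm b) = π j ((π i).symm b)
      rw [Equiv.apply_symm_apply, h1, Equiv.apply_symm_apply]
    rw [e, Set.ncard_image_of_injective _ hinj, Set.ncard_univ, Nat.card_eq_fintype_card,
      Fintype.card_fin]

/-- A structured tuple: the matching `j` shifts the blocks by `j`. -/
def blk {Δ p : ℕ} [NeZero Δ] (τ : Fin Δ → Fin Δ → Equiv.Perm (Fin p)) (j : Fin Δ) :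
    Equiv.Perm (Fin (Δ * p)) :=
  (finProdFinEquiv.symm.trans (Equiv.prodShear (Equiv.addRight j) (fun u => τ j u))).trans
    finProdFinEquiv

theorem blk_apply {Δ p : ℕ} [NeZero Δ] (τ : Fin Δ → Fin Δ → Equiv.Perm (Fin p)) (j u : Fin Δ)
    (x : Fin p) : blk τ j (finProdFinEquiv (u, x)) = finProdFinEquiv (u + j, τ j u x) := by
  simp [blk]

theorem blk_injective {Δ p : ℕ} [NeZero Δ] :
    Function.Injective (fun (τ : Fin Δ → Fin Δ → Equiv.Perm (Fin p)) => blk τ) := by
  intro τ τ' h
  funext j u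
  ext x
  have h1 := congrFun h j
  have h2 := congrArg (fun q : Equiv.Perm (Fin (Δ * p)) => q (finProdFinEquiv (u, x))) h1
  simp only [blk_apply] at h2
  have h3 := finProdFinEquiv.injective h2
  simp only [Prod.mk.injEq, true_and] at h3
  exact congrArg Fin.val h3

theorem blk_disjoint {Δ p : ℕ} [NeZero Δ] (τ : Fin Δ → Fin Δ → Equiv.Perm (Fin p))
    (a : Fin (Δ * p)) : Function.Injective (fun j => blk τ j a) := by
  intro i j hij
  obtain ⟨⟨u, x⟩, rfl⟩ := finProdFinEquiv.surjective a
  simp only [blk_apply] at hij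
  have h3 := finProdFinEquiv.injective hij
  simp only [Prod.mk.injEq] at h3
  exact add_left_cancel h3.1

/-- Some structured tuple has a union of large geometric thickness. -/
theorem exists_good (Δ : ℕ) (hΔ : 5 ≤ Δ) : ∀ᶠ p : ℕ in atTop,
    ∃ π : Fin Δ → Equiv.Perm (Fin (Δ * p)), (∀ a, Function.Injective (fun j => π j a)) ∧
      ((Δ * p : ℕ) : ℝ) ^ (1 / 2 - 2 / (Δ : ℝ)) *
        Real.exp (-(25 * √(Real.log ((Δ * p : ℕ) : ℝ)))) < (geometricThickness (un π) : ℝ) := by
  classical
  have : NeZero Δ := ⟨by omega⟩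
  have ht : Tendsto (fun p : ℕ => Δ * p) atTop atTop :=
    tendsto_id.const_mul_atTop' (by omega)
  filter_upwards [ht.eventually (bad_le Δ hΔ), eventually_gt_atTop 0,
    ht.eventually (sqrt_log_tendsto.eventually_ge_atTop (Δ + 3))] with p hp hp0 hs
  by_contra hcon
  push Not at hcon
  obtain ⟨m, hm⟩ : ∃ m, m = Δ * p := ⟨_, rfl⟩
  have hsub : Set.range (fun (τ : Fin Δ → Fin Δ → Equiv.Perm (Fin p)) => blk τ) ⊆
      bad (Δ * p) Δ := by
    rintro _ ⟨τ, rfl⟩
    exact hcon (blk τ) (blk_disjoint τ)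
  have h1 : ((p.factorial) ^ Δ) ^ Δ ≤ (bad (Δ * p) Δ).ncard := by
    refine le_trans (le_of_eq ?_) (Set.ncard_le_ncard hsub (Set.toFinite _))
    rw [← Set.image_univ, Set.ncard_image_of_injective _ blk_injective, Set.ncard_univ,
      Nat.card_eq_fintype_card]
    simp [Fintype.card_perm]
  have h2 : (((p.factorial : ℝ) ^ Δ) ^ Δ) ≤
      Real.exp (-(Δ * ((Δ * p : ℕ) : ℝ) * √(Real.log ((Δ * p : ℕ) : ℝ)))) *
        ((Δ * p).factorial : ℝ) ^ Δ := by
    refine le_trans ?_ hp
    exact_mod_cast h1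
  rw [← hm] at h2 hs
  have hm0 : 0 < m := by rw [hm]; exact Nat.mul_pos (by omega) hp0
  have hmR : (0:ℝ) < m := by exact_mod_cast hm0
  have hpR : (0:ℝ) < p := by exact_mod_cast hp0
  have hΔR : (0:ℝ) < Δ := by
    have : 0 < Δ := by omega
    exact_mod_cast this
  have hpf : (0:ℝ) < p.factorial := by exact_mod_cast Nat.factorial_pos p
  have hmf : (0:ℝ) < m.factorial := by exact_mod_cast Nat.factorial_pos m
  have h3 := Real.log_le_log (by positivity) h2
  rw [Real.log_mul (by positivity) (by positivity), Real.log_exp, Real.log_pow, Real.log_pow,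
    Real.log_pow] at h3
  -- lower bound of `log p!`
  have hfac : (p:ℝ) * Real.log p - 2 * p ≤ Real.log (p.factorial : ℝ) := by
    have h1 := Pool.Agent.Helper448.Final.pow_self_le p
    have h2 : (p:ℝ) ^ p ≤ 4 ^ p * (p.factorial : ℝ) := by exact_mod_cast h1
    have h3 := Real.log_le_log (by positivity) h2
    rw [Real.log_mul (by positivity) (by positivity), Real.log_pow, Real.log_pow] at h3
    have h4 : Real.log 4 ≤ 2 := by
      have : (4 : ℝ) = 2 ^ 2 := by norm_num
      rw [this, Real.log_pow]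
      have := Real.log_two_lt_d9
      push_cast
      linarith
    have h5 : (p:ℝ) * Real.log 4 ≤ p * 2 := mul_le_mul_of_nonneg_left h4 hpR.le
    linarith
  -- upper bound of `log m!`
  have hfac2 : Real.log (m.factorial : ℝ) ≤ m * (Δ + Real.log p) := by
    have h4 : (m.factorial : ℝ) ≤ (m:ℝ) ^ m := by exact_mod_cast Nat.factorial_le_pow m
    have h5 := Real.log_le_log hmf h4
    rw [Real.log_pow] at h5
    have h6 : Real.log m = Real.log Δ + Real.log p := by
      rw [hm]; push_cast
      exact Real.log_mul hΔR.ne' hpR.ne'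
    have h7 : Real.log Δ ≤ Δ := by
      have := Real.log_le_sub_one_of_pos hΔR
      linarith
    rw [h6] at h5
    have h8 : (m:ℝ) * (Real.log Δ + Real.log p) ≤ m * (Δ + Real.log p) :=
      mul_le_mul_of_nonneg_left (by linarith) hmR.le
    linarith
  have hmp : (m:ℝ) = Δ * p := by rw [hm]; push_cast; ring
  have e1 : (Δ:ℝ) * (Δ * (p * Real.log p - 2 * p)) ≤ Δ * (Δ * Real.log (p.factorial : ℝ)) :=
    mul_le_mul_of_nonneg_left (mul_le_mul_of_nonneg_left hfac hΔR.le) hΔR.le
  have e2 : (Δ:ℝ) * Real.log (m.factorial : ℝ) ≤ Δ * (m * (Δ + Real.log p)) :=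
    mul_le_mul_of_nonneg_left hfac2 hΔR.le
  have e3 : (Δ:ℝ) * m * (Δ + 3) ≤ Δ * m * √(Real.log m) :=
    mul_le_mul_of_nonneg_left hs (by positivity)
  have e4 : (Δ:ℝ) * (Δ * (p * Real.log p - 2 * p)) = Δ * m * Real.log p - 2 * (Δ * m) := by
    rw [hmp]; ring
  have e5 : (Δ:ℝ) * (m * (Δ + Real.log p)) = Δ * m * Δ + Δ * m * Real.log p := by ring
  have e6 : (Δ:ℝ) * m * (Δ + 3) = Δ * m * Δ + 3 * (Δ * m) := by ring
  have e7 : 0 < (Δ:ℝ) * m := by positivity
  rw [e4] at e1
  rw [e5] at e2
  rw [e6] at e3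
  linarith

/-- **Unions of `Δ ≥ 5` perfect matchings have polynomially large geometric thickness.**
(1) For every `Δ ≥ 5` and all large `m` the proportion of the `Δ`-tuples of perfect matchings between
two sets with `m` elements whose union has geometric thickness at most
`m ^ (1/2 - 2/Δ) * exp (- 25 √(log m))` is at most `exp (- Δ m √(log m))`.
(2) For every `Δ ≥ 5` and all large `n` there is a graph with `n` vertices, all degrees at most `Δ`
and at most `n % (2 Δ)` vertices of degree different from `Δ` (so it is `Δ`-regular if `2 Δ` divides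
`n`) whose geometric thickness is greater than `n ^ (1/2 - 2/Δ) * exp (- 26 √(log n))`. -/
theorem result :
    (∀ Δ : ℕ, 5 ≤ Δ → ∀ᶠ m : ℕ in atTop,
      (({π : Fin Δ → Equiv.Perm (Fin m) | (geometricThickness (un π) : ℝ) ≤
        (m : ℝ) ^ (1 / 2 - 2 / (Δ : ℝ)) * Real.exp (-(25 * √(Real.log m)))}).ncard : ℝ) ≤
        Real.exp (-(Δ * m * √(Real.log m))) * (m.factorial : ℝ) ^ Δ) ∧
    ∀ Δ : ℕ, 5 ≤ Δ → ∀ᶠ n : ℕ in atTop, ∃ G : SimpleGraph (Fin n),
      (∀ v, (G.neighborSet v).ncard ≤ Δ) ∧
      {v | (G.neighborSet v).ncard ≠ Δ}.ncard ≤ n % (2 * Δ) ∧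
      (n : ℝ) ^ (1 / 2 - 2 / (Δ : ℝ)) * Real.exp (-(26 * √(Real.log n))) <
        (geometricThickness G : ℝ) := by
  classical
  refine ⟨bad_le, ?_⟩
  intro Δ hΔ
  obtain ⟨he1, he2⟩ := exponent hΔ
  obtain ⟨p0, hp0⟩ := eventually_atTop.1 (exists_good Δ hΔ)
  filter_upwards [eventually_ge_atTop (2 * Δ * (p0 + 1)),
    sqrt_log_tendsto.eventually_ge_atTop 1] with n hn hsn
  obtain ⟨p, hp⟩ : ∃ p, p = n / (2 * Δ) := ⟨_, rfl⟩
  have hpge : p0 + 1 ≤ p := by
    rw [hp, Nat.le_div_iff_mul_le (by omega)]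
    rw [mul_comm]; exact hn
  obtain ⟨m, hm⟩ : ∃ m, m = Δ * p := ⟨_, rfl⟩
  have hex := hp0 p (by omega)
  rw [← hm] at hex
  obtain ⟨π, hdis, hπ⟩ := hex
  have hmod : 2 * m + n % (2 * Δ) = n := by
    have h1 := Nat.div_add_mod n (2 * Δ)
    rw [← hp] at h1
    rw [hm]
    rw [← h1]
    have : (2 * Δ * p + n % (2 * Δ)) % (2 * Δ) = n % (2 * Δ) := by rw [h1]
    rw [this]
    ring
  have hm2 : 2 * m ≤ n := by omega
  let f : Fin m ⊕ Fin m ↪ Fin n :=
    ⟨Sum.elim (fun a => ⟨a.val, by have := a.2; omega⟩) (fun a => ⟨m + a.val, by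
      have := a.2; omega⟩), by
      rintro (a | a) (b | b) h
      · have := congrArg Fin.val h
        simp only [Sum.elim_inl] at this
        exact congrArg Sum.inl (Fin.ext this)
      · have := congrArg Fin.val h
        simp only [Sum.elim_inl, Sum.elim_inr] at this
        have := a.2
        omega
      · have := congrArg Fin.val h
        simp only [Sum.elim_inl, Sum.elim_inr] at this
        have := b.2
        omega
      · have := congrArg Fin.val h
        simp only [Sum.elim_inr] at this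
        exact congrArg Sum.inr (Fin.ext (by omega))⟩
  have hin : ∀ w, (((un π).map f).neighborSet (f w)).ncard = Δ := by
    intro w
    have e : ((un π).map f).neighborSet (f w) = f '' ((un π).neighborSet w) := by
      ext x
      constructor
      · intro hx
        rw [SimpleGraph.mem_neighborSet, SimpleGraph.map_adj] at hx
        obtain ⟨u, u', huu, h1, h2⟩ := hx
        have := f.injective h1
        subst this
        exact ⟨u', huu, h2⟩
      · rintro ⟨u', huu, rfl⟩
        rw [SimpleGraph.mem_neighborSet, SimpleGraph.map_adj]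
        exact ⟨w, u', huu, rfl, rfl⟩
    rw [e, Set.ncard_image_of_injective _ f.injective]
    exact un_regular π hdis w
  have hout : ∀ v, (¬ ∃ w, f w = v) → ((un π).map f).neighborSet v = ∅ := by
    intro v hv
    rw [Set.eq_empty_iff_forall_notMem]
    intro x hx
    rw [SimpleGraph.mem_neighborSet, SimpleGraph.map_adj] at hx
    obtain ⟨u, u', huu, h1, h2⟩ := hx
    exact hv ⟨u, h1⟩
  refine ⟨(un π).map f, ?_, ?_, ?_⟩
  · intro v
    by_cases hv : ∃ w, f w = v
    · obtain ⟨w, rfl⟩ := hv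
      exact (hin w).le
    · rw [hout v hv, Set.ncard_empty]
      omega
  · have hsub : {v | (((un π).map f).neighborSet v).ncard ≠ Δ} ⊆ (Set.range f)ᶜ := by
      intro v hv hr
      obtain ⟨w, rfl⟩ := hr
      exact hv (hin w)
    have h1 : (Set.range f).ncard = 2 * m := by
      rw [← Set.image_univ, Set.ncard_image_of_injective _ f.injective, Set.ncard_univ,
        Nat.card_eq_fintype_card]
      simp [two_mul]
    have h2 := Set.ncard_add_ncard_compl (Set.range f)
    rw [h1, Nat.card_eq_fintype_card, Fintype.card_fin] at h2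
    have h3 := Set.ncard_le_ncard hsub (Set.toFinite _)
    omega
  · have h1 : geometricThickness (un π) ≤ geometricThickness ((un π).map f) := by
      apply thickness_mono f
      intro u v huv
      rw [SimpleGraph.map_adj]
      exact ⟨u, v, huv, rfl, rfl⟩
    have h2 : (geometricThickness (un π) : ℝ) ≤ geometricThickness ((un π).map f) := by
      exact_mod_cast h1
    refine lt_of_lt_of_le ?_ h2
    refine lt_of_le_of_lt ?_ hπ
    have hm0 : 0 < m := by
      rw [hm]; exact Nat.mul_pos (by omega) (by omega)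
    have hmR : (0:ℝ) < m := by exact_mod_cast hm0
    have hn4 : n ≤ 4 * m := by
      have h3 : n % (2 * Δ) < 2 * Δ := Nat.mod_lt _ (by omega)
      have h4 : Δ ≤ m := by
        rw [hm]; exact Nat.le_mul_of_pos_right _ (by omega)
      omega
    have hn4R : (n:ℝ) ≤ 4 * m := by exact_mod_cast hn4
    have hnm : (m:ℝ) ≤ n := by
      have : m ≤ n := by omega
      exact_mod_cast this
    have hnR : (0:ℝ) < n := by linarith
    have he0 : 0 ≤ 1 / 2 - 2 / (Δ : ℝ) := by linarith
    have h3 : (n : ℝ) ^ (1 / 2 - 2 / (Δ : ℝ)) ≤ 2 * (m : ℝ) ^ (1 / 2 - 2 / (Δ : ℝ)) := by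
      calc (n : ℝ) ^ (1 / 2 - 2 / (Δ : ℝ)) ≤ (4 * m : ℝ) ^ (1 / 2 - 2 / (Δ : ℝ)) :=
            Real.rpow_le_rpow hnR.le hn4R he0
        _ = (4 : ℝ) ^ (1 / 2 - 2 / (Δ : ℝ)) * (m : ℝ) ^ (1 / 2 - 2 / (Δ : ℝ)) :=
            Real.mul_rpow (by norm_num) hmR.le
        _ ≤ 2 * (m : ℝ) ^ (1 / 2 - 2 / (Δ : ℝ)) := by
            apply mul_le_mul_of_nonneg_right _ (by positivity)
            calc (4 : ℝ) ^ (1 / 2 - 2 / (Δ : ℝ)) ≤ (4 : ℝ) ^ ((1:ℝ) / 2) :=
                  Real.rpow_le_rpow_of_exponent_le (by norm_num) he2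
              _ = 2 := by
                  rw [← Real.sqrt_eq_rpow]
                  rw [show (4:ℝ) = 2 ^ 2 by norm_num]
                  exact Real.sqrt_sq (by norm_num)
    have h4 : √(Real.log m) ≤ √(Real.log n) :=
      Real.sqrt_le_sqrt (Real.log_le_log hmR hnm)
    have h5 : Real.exp (-(26 * √(Real.log n))) ≤ Real.exp (-(25 * √(Real.log m))) * (1 / 2) := by
      have h6 : Real.exp (-1) ≤ 1 / 2 := by
        rw [Real.exp_neg, inv_eq_one_div]
        apply one_div_le_one_div_of_le (by norm_num)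
        have := Real.add_one_le_exp (1:ℝ)
        linarith
      calc Real.exp (-(26 * √(Real.log n))) ≤ Real.exp (-(25 * √(Real.log m)) + -1) := by
            apply Real.exp_le_exp.mpr
            linarith
        _ = Real.exp (-(25 * √(Real.log m))) * Real.exp (-1) := Real.exp_add _ _
        _ ≤ Real.exp (-(25 * √(Real.log m))) * (1 / 2) :=
            mul_le_mul_of_nonneg_left h6 (Real.exp_pos _).le
    calc (n : ℝ) ^ (1 / 2 - 2 / (Δ : ℝ)) * Real.exp (-(26 * √(Real.log n)))
        ≤ (2 * (m : ℝ) ^ (1 / 2 - 2 / (Δ : ℝ))) *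
          (Real.exp (-(25 * √(Real.log m))) * (1 / 2)) :=
          mul_le_mul h3 h5 (Real.exp_pos _).le (by positivity)
      _ = (m : ℝ) ^ (1 / 2 - 2 / (Δ : ℝ)) * Real.exp (-(25 * √(Real.log m))) := by ring

end Pool.Agent.Results.MP_f50651_co.PolynomialGrowth
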